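import Pool.Agent.W434.BW.StmB

/-!
# BW-AFM: main lemma of the absorption free step
-/

set_option autoImplicit false

namespace Pool.Agent.W18.BW

open Pool.Agent.W434.BW

theorem rl_rel {Ω : Type} {ar : Ω → ℕ} {V St A : Type} (a : Alg ar A) (S : Sys V St A)
    (h : ∀ s, Rel a a (S.E s)) (l : List St) : Rel a a (S.Rl l) := by
  induction l with
  | nil =>
    intro ω x y hxy
    show a ω x = a ω y
    congr 1
    funext i
    exact hxy i
  | cons s l ih =>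
    intro ω x y hxy
    choose c hc1 hc2 using hxy
    exact ⟨a ω c, h s ω x c hc1, ih ω c y hc2⟩

theorem back {V St A : Type} (S : Sys V St A) (hS : S.Ok) (π : List St) (x y : V)
    (h : S.IsPath π x y) (c : A) (hc : c ∈ S.P y) : ∃ a ∈ S.P x, S.Rl π a c := by
  obtain ⟨a, ha, hR⟩ := S.rl_ext hS (S.rv π) y x (S.isPath_rv hS π x y h) c hc
  exact ⟨a, ha, (S.rl_rv hS π a c).1 hR⟩

theorem afmain (hL : S_Lt) (hP : S_pr) : S_afmain := by
  intro Ω ar u V St A Q _ _ C hC X Ph _ _ b p e eh T z node hNb hNp hAFp hHe hSe hz hzP hzs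
    hpair hlast
  have hS := hC.ok
  set F : Set (X → Q) := {f | ∃ (t : T) (π : List St), C.Rigid π (node t) ∧
    ∀ ξ, ∀ a ∈ C.S.P C.x0, C.S.Rl π a (z t ξ) → C.h0 a = f ξ} with hF
  have hex : ∀ (t : T) (π : List St), C.Rigid π (node t) →
      ∃ f : X → Q, ∀ ξ, ∀ a ∈ C.S.P C.x0, C.S.Rl π a (z t ξ) → C.h0 a = f ξ := by
    intro t π hπ
    have h1 : ∀ ξ, ∃ a ∈ C.S.P C.x0, C.S.Rl π a (z t ξ) := fun ξ =>
      back C.S hS π C.x0 (node t) hπ.1 (z t ξ) (hzP t ξ)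
    choose g hg1 hg2 using h1
    exact ⟨fun ξ => C.h0 (g ξ), fun ξ a ha hR => hπ.2 a ha (g ξ) (hg1 ξ) _ hR (hg2 ξ)⟩
  have hhom : ∀ f ∈ F, Hom b C.q f := by
    rintro f ⟨t, π, hπ, hf⟩ ω ξ
    have h1 : ∀ i, ∃ a ∈ C.S.P C.x0, C.S.Rl π a (z t (ξ i)) := fun i =>
      back C.S hS π C.x0 (node t) hπ.1 (z t (ξ i)) (hzP t _)
    choose g hg1 hg2 using h1
    have h2 : C.S.Rl π (C.a ω g) (z t (b ω ξ)) := by
      rw [hz t ω ξ]
      exact rl_rel C.a C.S hC.relE π ω g _ hg2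
    have h3 := hf (b ω ξ) (C.a ω g) (hC.subP C.x0 ω g hg1) h2
    rw [← h3, hC.hom ω g hg1]
    congr 1
    funext i
    exact hf (ξ i) (g i) (hg1 i) (hg2 i)
  have hsur : ∀ f ∈ F, Function.Surjective f := by
    rintro f ⟨t, π, hπ, hf⟩ v
    obtain ⟨c, hc, rfl⟩ := hC.sur v
    obtain ⟨c', hc', hR⟩ := C.S.rl_ext hS π C.x0 (node t) hπ.1 c hc
    obtain ⟨ξ, rfl⟩ := hzs t c' hc'
    exact ⟨ξ, (hf ξ c hc hR).symm⟩
  obtain ⟨ξ, hξ1, hξ2⟩ := hL Ω ar u X Ph Q b p C.q e F eh C.B hNb hNp hC.niceq hAFp hC.afq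
    hC.simple hC.nl hHe hSe hhom hsur (by
      rintro f ⟨t, π, hπ, hf⟩ g ⟨t', π', hπ', hg⟩ τ hτ
      obtain ⟨μ, hμ1, hμ2⟩ := hpair t t'
      set w : List St := π ++ (μ ++ C.S.rv π') with hw
      have hwp : C.S.IsPath w C.x0 C.x0 := by
        rw [hw, Sys.isPath_append]
        refine ⟨node t, hπ.1, ?_⟩
        rw [Sys.isPath_append]
        exact ⟨node t', hμ1, C.S.isPath_rv hS π' _ _ hπ'.1⟩
      have hw1 : ∀ a ∈ C.S.P C.x0, ∀ a', C.S.Rl w a a' → C.h0 a' = τ (C.h0 a) := by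
        intro a ha a' hR
        have ha' : a' ∈ C.S.P C.x0 := C.S.rl_dom hS w _ _ hwp a a' ha hR
        rw [hw, Sys.rl_append] at hR
        obtain ⟨c, hc1, hR⟩ := hR
        rw [Sys.rl_append] at hR
        obtain ⟨c', hc2, hc3⟩ := hR
        rw [Sys.rl_rv C.S hS] at hc3
        have hcP : c ∈ C.S.P (node t) := C.S.rl_dom hS π _ _ hπ.1 a c ha hc1
        obtain ⟨ξ, rfl, rfl⟩ := hμ2 c hcP c' hc2
        rw [hf ξ a ha hc1, hg ξ a' ha' hc3]
        exact hτ ξ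
      have hwn : ∀ n : ℕ, ∀ a ∈ C.S.P C.x0, ∀ a', C.S.Rl (rep n w) a a' →
          C.h0 a' = τ^[n] (C.h0 a) := by
        intro n
        induction n with
        | zero =>
          intro a _ a' hR
          have : a = a' := hR
          rw [this]
          rfl
        | succ n ih =>
          intro a ha a' hR
          rw [rep_succ, Sys.rl_append] at hR
          obtain ⟨c, hc1, hc2⟩ := hR
          have hc : c ∈ C.S.P C.x0 := C.S.rl_dom hS w _ _ hwp a c ha hc1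
          rw [ih c hc a' hc2, hw1 a ha c hc1, Function.iterate_succ_apply]
      obtain ⟨N, hN⟩ := hP V St A C.S hS hC.qc C.x0 w hwp
      obtain ⟨a, ha, hav⟩ := hC.sur C.B
      have e1 := hwn N a ha a ((hN N le_rfl).1 a ha)
      have e2 := hwn (N + 1) a ha a ((hN (N + 1) (Nat.le_succ N)).1 a ha)
      rw [Function.iterate_succ_apply', ← e1] at e2
      rw [hav] at e2
      exact e2.symm) (by
      rintro f ⟨t, π, hπ, hf⟩ h hh
      exact hlast t π hπ h fun ξ a ha hR => (hf ξ a ha hR).trans (hh ξ))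
  refine ⟨ξ, hξ1, fun t => ⟨hzP t ξ, fun π hπ a ha hR => ?_⟩⟩
  obtain ⟨f, hf⟩ := hex t π hπ
  rw [hf ξ a ha hR]
  exact hξ2 f ⟨t, π, hπ, hf⟩

end Pool.Agent.W18.BW

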